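import Pool.Agent.Helper26.HN.Stmts

set_option autoImplicit false

namespace Pool.Agent.Helper64.HN

open MeasureTheory Filter Pool.Agent.Helper95 Pool.Agent.Helper95.PW Pool.Agent.Helper95.LN
open Pool.Agent.Helper26.HN

theorem dyz_kin_nonneg {n : ℕ} (u : Wf n) : 0 ≤ kin u := by
  unfold kin
  refine Finset.sum_nonneg fun k _ => Finset.sum_nonneg fun i _ => ?_
  unfold PW.sq
  exact Finset.sum_nonneg fun s _ => integral_nonneg fun x => sq_nonneg _

theorem dyz_pt {M : ℕ} (X : Fin M → R3) (b s : ℝ) (hs : 0 < s) (hsb : s ≤ b) (hb2 : b ≤ 2 * s)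
    (y : R3) : near1 X b y ≤ near1 X s y + 2 / b * nbr X b y := by
  have hb : 0 < b := lt_of_lt_of_le hs hsb
  unfold near1 nbr
  rw [Finset.mul_sum, ← Finset.sum_add_distrib]
  refine Finset.sum_le_sum fun j _ => ?_
  have h2b : 0 < 2 / b := by positivity
  have hnn : 0 ≤ nr (y - X j) := Real.sqrt_nonneg _
  by_cases h1 : nr (y - X j) < b
  · rw [if_pos h1, if_pos h1]
    by_cases h2 : nr (y - X j) < s
    · rw [if_pos h2]
      linarith
    · rw [if_neg h2]
      have h3 : s ≤ nr (y - X j) := not_lt.1 h2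
      have h4 : 1 / nr (y - X j) ≤ 2 / b := by
        rw [div_le_div_iff₀ (lt_of_lt_of_le hs h3) hb]
        linarith
      linarith
  · have h2 : ¬ nr (y - X j) < s := fun h => h1 (lt_of_lt_of_le h hsb)
    rw [if_neg h1, if_neg h1, if_neg h2]
    simp

theorem dyz_step (hI : ST_INZ) {n M : ℕ} (X : Fin M → R3) (b s : ℝ) (hs : 0 < s) (hsb : s ≤ b)
    (hb2 : b ≤ 2 * s) (u : Wf n) (hu : Sm u) :
    one (near1 X b) u ≤ one (near1 X s) u + 2 / b * one (nbr X b) u := by
  unfold one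
  rw [Finset.mul_sum, ← Finset.sum_add_distrib]
  refine Finset.sum_le_sum fun t _ => ?_
  have i1 := (hI n M X b u hu).1 t
  have i2 := (hI n M X s u hu).1 t
  have i3 := (hI n M X b u hu).2 t
  rw [← integral_const_mul, ← integral_add i2 (i3.const_mul _)]
  refine integral_mono i1 (i2.add (i3.const_mul _)) fun x => ?_
  show (∑ k, near1 X b (x k)) * u t x ^ 2 ≤ (∑ k, near1 X s (x k)) * u t x ^ 2 +
    2 / b * ((∑ k, nbr X b (x k)) * u t x ^ 2)
  have h : ∑ k, near1 X b (x k) ≤ (∑ k, near1 X s (x k)) + 2 / b * ∑ k, nbr X b (x k) := by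
    rw [Finset.mul_sum, ← Finset.sum_add_distrib]
    exact Finset.sum_le_sum fun k _ => dyz_pt X b s hs hsb hb2 (x k)
  have h2 := mul_le_mul_of_nonneg_right h (sq_nonneg (u t x))
  linarith

theorem st_DYZ (hN : ST_NRL) (hI : ST_INZ) : ST_DYZ := by
  obtain ⟨C, hC, hN⟩ := hN
  set q : ℝ := (1 / 2 : ℝ) ^ (1 / 5 : ℝ) with hq
  have hq0 : 0 < q := Real.rpow_pos_of_pos (by norm_num) _
  have hq1 : q < 1 := Real.rpow_lt_one (by norm_num) (by norm_num) (by norm_num)
  have hq2 : 0 < 1 - q := by linarith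
  set B : ℝ := 2 * C / (1 - q) with hB
  have hB0 : 0 < B := by positivity
  have hBq : B * (1 - q) = 2 * C := by rw [hB]; field_simp
  have hBC : 2 * C ≤ B := by nlinarith
  refine ⟨4 * C + B, by positivity, ?_⟩
  intro n M X d s b u hX hs hsb hbd hu hA hsq
  set P : ℝ := (M : ℝ) ^ (2 / 5 : ℝ) * kin u ^ (3 / 5 : ℝ) with hP
  have hk := dyz_kin_nonneg u
  have hP0 : 0 ≤ P := by
    have := Real.rpow_nonneg hk (3 / 5)
    have := Real.rpow_nonneg (Nat.cast_nonneg (α := ℝ) M) (2 / 5)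
    positivity
  have hM : (0 : ℝ) ≤ M := Nat.cast_nonneg M
  -- the single scale bound
  have hsc : ∀ r : ℝ, 0 < r → r ≤ d →
      2 / r * one (nbr X r) u ≤ 2 * C * M / r + 2 * C * P * r ^ (1 / 5 : ℝ) := by
    intro r hr hrd
    have h1 := hN n M X d r u hX hr hrd hu hA hsq
    have h2 := mul_le_mul_of_nonneg_left h1 (by positivity : 0 ≤ 2 / r)
    have h3 : (kin u * r ^ 2) ^ (3 / 5 : ℝ) = kin u ^ (3 / 5 : ℝ) * (r * r ^ (1 / 5 : ℝ)) := by
      rw [Real.mul_rpow hk (by positivity), ← Real.rpow_natCast r 2, ← Real.rpow_mul hr.le]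
      congr 1
      rw [show ((2 : ℕ) : ℝ) * (3 / 5) = 1 + 1 / 5 by norm_num, Real.rpow_add hr, Real.rpow_one]
    rw [h3] at h2
    refine h2.trans (le_of_eq ?_)
    rw [hP]
    field_simp
  have key : ∀ k : ℕ, ∀ r : ℝ, s ≤ r → r ≤ 2 ^ k * s → r ≤ d →
      one (near1 X r) u ≤ one (near1 X s) u + (4 * C * M / s - 2 * C * M / r +
        B * P * r ^ (1 / 5 : ℝ)) := by
    intro k
    induction k with
    | zero =>
      intro r h1 h2 _
      have : r = s := le_antisymm (by simpa using h2) h1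
      subst this
      have e1 : 0 ≤ B * P * r ^ (1 / 5 : ℝ) := by
        have := Real.rpow_nonneg hs.le (1 / 5)
        positivity
      have e2 : 4 * C * M / r - 2 * C * M / r = 2 * C * M / r := by ring
      have e3 : 0 ≤ 2 * C * M / r := by positivity
      linarith
    | succ k ih =>
      intro r h1 h2 h3
      have hr : 0 < r := lt_of_lt_of_le hs h1
      have hr5 : 0 ≤ r ^ (1 / 5 : ℝ) := Real.rpow_nonneg hr.le _
      have hsr := hsc r hr h3
      by_cases h4 : s ≤ r / 2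
      · have i1 := ih (r / 2) h4 (by rw [pow_succ] at h2; linarith) (by linarith)
        have i2 := dyz_step hI X r (r / 2) (by linarith) (by linarith) (by linarith) u hu
        have e1 : (r / 2) ^ (1 / 5 : ℝ) = q * r ^ (1 / 5 : ℝ) := by
          rw [hq, ← Real.mul_rpow (by norm_num) hr.le]
          congr 1
          ring
        rw [e1] at i1
        have e2 : 2 * C * M / (r / 2) = 2 * (2 * C * M / r) := by
          field_simp
        rw [e2] at i1
        have e3 : B * P * (q * r ^ (1 / 5 : ℝ)) + 2 * C * P * r ^ (1 / 5 : ℝ) =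
            B * P * r ^ (1 / 5 : ℝ) := by
          rw [← hBq]
          ring
        linarith
      · push Not at h4
        have i2 := dyz_step hI X r s hs h1 (by linarith) u hu
        have e1 : 2 * C * P * r ^ (1 / 5 : ℝ) ≤ B * P * r ^ (1 / 5 : ℝ) :=
          mul_le_mul_of_nonneg_right (mul_le_mul_of_nonneg_right hBC hP0) hr5
        have e2 : 2 * C * M / r ≤ 2 * C * M / s := by
          exact div_le_div_of_nonneg_left (by positivity) hs h1
        have e3 : 4 * C * M / s = 2 * (2 * C * M / s) := by ring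
        linarith
  obtain ⟨k, hk2⟩ := pow_unbounded_of_one_lt (b / s) (by norm_num : (1 : ℝ) < 2)
  have hb2 : b ≤ 2 ^ k * s := by
    rw [div_lt_iff₀ hs] at hk2
    exact hk2.le
  have hb : 0 < b := lt_of_lt_of_le hs hsb
  have hb5 : 0 ≤ b ^ (1 / 5 : ℝ) := Real.rpow_nonneg hb.le _
  have h := key k b hsb hb2 hbd
  have e1 : 0 ≤ 2 * C * M / b := by positivity
  have e2 : 0 ≤ 4 * C * (P * b ^ (1 / 5 : ℝ)) := by positivity
  have e3 : 0 ≤ B * (M / s) := by positivity
  have e4 : (4 * C + B) * (M / s + (M : ℝ) ^ (2 / 5 : ℝ) * kin u ^ (3 / 5 : ℝ) *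
      b ^ (1 / 5 : ℝ)) = 4 * C * M / s + B * (M / s) + 4 * C * (P * b ^ (1 / 5 : ℝ)) +
        B * P * b ^ (1 / 5 : ℝ) := by
    rw [hP]
    ring
  rw [e4]
  linarith

end Pool.Agent.Helper64.HN
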